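import Pool.Agent.Run7.h400.GK.StmK
import Pool.Agent.Run7.h400.GK.StmC

/-!
# Project GK, piece PC: conclusion of part C
-/

set_option autoImplicit false
set_option linter.unusedSectionVars false

namespace Pool.Agent.Run7.h768.GK

open Run7.h400.GK Polynomial Finset

/-- a sum over a period may be shifted by one -/
theorem sum_shift {M : Type} [AddCommMonoid M] (d : ℕ) (f : ℕ → M) (hf : f d = f 0) :
    ∑ j ∈ range d, f (j + 1) = ∑ j ∈ range d, f j := by
  rcases d with _ | d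
  · simp
  · rw [Finset.sum_range_succ, Finset.sum_range_succ', hf]

theorem prod_shift {M : Type} [CommMonoid M] (d : ℕ) (f : ℕ → M) (hf : f d = f 0) :
    ∏ j ∈ range d, f (j + 1) = ∏ j ∈ range d, f j := by
  rcases d with _ | d
  · simp
  · rw [Finset.prod_range_succ, Finset.prod_range_succ', hf]

/-- the shifted exponent -/
def k1 (q d k : ℕ) : ℕ := k / q + (k % q) * q ^ (d - 1)

theorem q_mul_k1 (q d k : ℕ) (hd : 1 ≤ d) (hq : 2 ≤ q) :
    q * k1 q d k = k + (k % q) * (q ^ d - 1) := by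
  unfold k1
  obtain ⟨e, rfl⟩ : ∃ e, d = e + 1 := ⟨d - 1, by omega⟩
  have h1 : q * (k / q) + k % q = k := Nat.div_add_mod k q
  have h2 : 1 ≤ q ^ (e + 1) := Nat.one_le_pow _ _ (by omega)
  obtain ⟨Q, hQ⟩ : ∃ Q, q ^ (e + 1) = Q + 1 := ⟨q ^ (e + 1) - 1, by omega⟩
  have h3 : q * q ^ e = Q + 1 := by rw [← hQ, pow_succ]; ring
  simp only [Nat.add_sub_cancel]
  rw [hQ, Nat.add_sub_cancel]
  calc q * (k / q + k % q * q ^ e) = q * (k / q) + k % q * (q * q ^ e) := by ring
    _ = q * (k / q) + k % q * (Q + 1) := by rw [h3]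
    _ = (q * (k / q) + k % q) + k % q * Q := by ring
    _ = k + k % q * Q := by rw [h1]

theorem dg_k1 (q d k : ℕ) (hd : 1 ≤ d) (hq : 2 ≤ q) (hk : k < q ^ d) (j : ℕ) (hj : j < d) :
    dg q (k1 q d k) j = if j + 1 < d then dg q k (j + 1) else dg q k 0 := by
  unfold dg k1
  have hq0 : 0 < q := by omega
  obtain ⟨r, hr⟩ : ∃ r, d - 1 = j + r := ⟨d - 1 - j, by omega⟩
  have hqj : 0 < q ^ j := Nat.pow_pos hq0
  have h1 : (k / q + k % q * q ^ (d - 1)) / q ^ j = k / q ^ (j + 1) + k % q * q ^ r := by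
    rw [hr, pow_add]
    have : k % q * (q ^ j * q ^ r) = (k % q * q ^ r) * q ^ j := by ring
    rw [this, Nat.add_mul_div_right _ _ hqj, Nat.div_div_eq_div_mul, pow_succ, mul_comm q]
  rw [h1]
  split_ifs with h
  · have : 1 ≤ r := by omega
    obtain ⟨r', rfl⟩ : ∃ r', r = r' + 1 := ⟨r - 1, by omega⟩
    have h2 : k % q * q ^ (r' + 1) = (k % q * q ^ r') * q := by ring
    rw [h2, Nat.add_mul_mod_self_right]
  · have hr0 : r = 0 := by omega
    have hjd : j + 1 = d := by omega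
    rw [hjd, Nat.div_eq_of_lt hk, hr0]
    simp

theorem k1_le (q d k : ℕ) (hd : 1 ≤ d) (hq : 2 ≤ q) (hk : k < q ^ d) : k1 q d k ≤ q ^ d - 1 := by
  have h := q_mul_k1 q d k hd hq
  have h1 : k % q < q := Nat.mod_lt _ (by omega)
  have h2 : k % q * (q ^ d - 1) ≤ (q - 1) * (q ^ d - 1) := Nat.mul_le_mul_right _ (by omega)
  have h3 : q * k1 q d k ≤ q * (q ^ d - 1) := by
    rw [h]
    calc k + k % q * (q ^ d - 1) ≤ (q ^ d - 1) + (q - 1) * (q ^ d - 1) := by omega
      _ = q * (q ^ d - 1) := by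
        obtain ⟨p, rfl⟩ : ∃ p, q = p + 1 := ⟨q - 1, by omega⟩
        simp only [Nat.add_sub_cancel]
        ring
  exact Nat.le_of_mul_le_mul_left h3 (by omega)

theorem k1_modeq (q d k : ℕ) (hd : 1 ≤ d) (hq : 2 ≤ q) : q * k1 q d k ≡ k [MOD q ^ d - 1] := by
  rw [q_mul_k1 q d k hd hq]
  unfold Nat.ModEq
  rw [Nat.add_mul_mod_self_right]

theorem k1_range (q d k : ℕ) (hd : 1 ≤ d) (hq : 2 ≤ q) (h0 : 0 < k) (hk : k < q ^ d - 1)
    (hdiv : (q - 1) ∣ k) :
    0 < k1 q d k ∧ k1 q d k < q ^ d - 1 ∧ (q - 1) ∣ k1 q d k := by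
  have hle := k1_le q d k hd hq (by omega)
  have hmod := k1_modeq q d k hd hq
  have hkm : k % (q ^ d - 1) = k := Nat.mod_eq_of_lt hk
  have hpos : 0 < k1 q d k := by
    rcases Nat.eq_zero_or_pos (k1 q d k) with h | h
    · exfalso
      rw [h, mul_zero] at hmod
      unfold Nat.ModEq at hmod
      rw [hkm, Nat.zero_mod] at hmod
      omega
    · exact h
  have hlt : k1 q d k < q ^ d - 1 := by
    rcases Nat.lt_or_ge (k1 q d k) (q ^ d - 1) with h | h
    · exact h
    · exfalso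
      have he : k1 q d k = q ^ d - 1 := le_antisymm hle h
      rw [he] at hmod
      unfold Nat.ModEq at hmod
      rw [hkm, Nat.mul_mod_left] at hmod
      omega
  refine ⟨hpos, hlt, ?_⟩
  have h1 : (q - 1) ∣ q ^ d - 1 := by
    have := Nat.sub_dvd_pow_sub_pow q 1 d
    simpa using this
  have h2 : (q - 1) ∣ q * k1 q d k := by
    rw [q_mul_k1 q d k hd hq]
    exact dvd_add hdiv (Dvd.dvd.mul_left h1 _)
  have h3 : Nat.Coprime (q - 1) q := by
    have : Nat.Coprime (q - 1) (q - 1 + 1) := by simp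
    have hq' : q - 1 + 1 = q := by omega
    rwa [hq'] at this
  exact h3.dvd_of_dvd_mul_left h2

section fields

variable {Fq E : Type} [Field Fq] [Fintype Fq] [Field E] [Fintype E] [Algebra Fq E]

theorem gk_shift (q : ℕ) (w : Fq[X]) (θ : E) (j : ℕ) : gk q w (θ ^ q) j = gk q w θ (j + 1) := by
  unfold gk
  have : (θ ^ q) ^ (q ^ j) = θ ^ (q ^ (j + 1)) := by rw [← pow_mul, pow_succ, mul_comm]
  rw [this]

theorem lam_shift {K : Type} [Field K] [Algebra E K] (q d : ℕ) (g : ℕ → K) (a : E)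
    (ha : a ^ (q ^ d) = a) (hg : g d = g 0) :
    lam q d (fun j => g (j + 1)) (a ^ q) = lam q d g a := by
  unfold lam
  have h := sum_shift d (fun i => algebraMap E K (a ^ (q ^ i)) * g i)
    (by simp only [hg, pow_zero, pow_one, ha])
  rw [← h]
  apply Finset.sum_congr rfl
  intro i _
  have : (a ^ q) ^ (q ^ i) = a ^ (q ^ (i + 1)) := by rw [← pow_mul, pow_succ, mul_comm]
  rw [this]

theorem nu_shift {K : Type} [Field K] [Algebra E K] (q d : ℕ) (θ : E) (T : K) (g : ℕ → K) (a : E)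
    (ha : a ^ (q ^ d) = a) (hθ : θ ^ (q ^ d) = θ) (hg : g d = g 0) :
    nu q d (θ ^ q) T (fun j => g (j + 1)) (a ^ q) = nu q d θ T g a := by
  unfold nu
  have h := sum_shift d (fun i => algebraMap E K (a ^ (q ^ i)) * g i /
    (T - algebraMap E K (θ ^ (q ^ i))))
    (by simp only [hg, pow_zero, pow_one, ha, hθ])
  rw [← h]
  apply Finset.sum_congr rfl
  intro i _
  have h1 : (a ^ q) ^ (q ^ i) = a ^ (q ^ (i + 1)) := by rw [← pow_mul, pow_succ, mul_comm]
  have h2 : (θ ^ q) ^ (q ^ i) = θ ^ (q ^ (i + 1)) := by rw [← pow_mul, pow_succ, mul_comm]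
  rw [h1, h2]

theorem pow_q_bij (q d : ℕ) (hd : 1 ≤ d) (hE : Fintype.card E = q ^ d) :
    Function.Bijective (fun a : E => a ^ q) := by
  apply Finite.injective_iff_bijective.mp
  intro a b hab
  have h : ∀ x : E, (x ^ q) ^ (q ^ (d - 1)) = x := by
    intro x
    rw [← pow_mul]
    have : q * q ^ (d - 1) = q ^ d := by
      rw [← pow_succ']
      congr 1
      omega
    rw [this, ← hE]
    exact FiniteField.pow_card x
  have hab' : a ^ q = b ^ q := hab
  rw [← h a, ← h b, hab']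

theorem Gam_shift {K : Type} [Field K] [Algebra E K] (q d k : ℕ) (θ : E) (T : K) (g : ℕ → K)
    (hd : 1 ≤ d) (hq : 2 ≤ q) (hE : Fintype.card E = q ^ d) (hg : g d = g 0) :
    Gam q d (k1 q d k) (θ ^ q) T (fun j => g (j + 1)) = Gam q d k θ T g := by
  unfold Gam
  symm
  have hpow : ∀ x : E, x ^ (q ^ d) = x := fun x => by rw [← hE]; exact FiniteField.pow_card x
  apply Finset.sum_bijective (fun a : E => a ^ q) (pow_q_bij q d hd hE)
  · intro a
    simp only [Finset.mem_filter, Finset.mem_univ, true_and]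
    constructor
    · intro h
      exact pow_ne_zero _ h
    · intro h h'
      apply h
      rw [h']
      exact zero_pow (by omega)
  · intro a ha
    have ha0 : a ≠ 0 := by simpa using ha
    rw [nu_shift q d θ T g a (hpow a) (hpow θ) hg, lam_shift q d g a (hpow a) hg]
    congr 2
    have hinv : (a ^ q)⁻¹ ^ (k1 q d k) = (a⁻¹) ^ (q * k1 q d k) := by
      rw [← inv_pow, ← pow_mul]
    rw [hinv, q_mul_k1 q d k hd hq, pow_add, mul_comm (k % q), pow_mul]
    have h1 : (a⁻¹) ^ (q ^ d - 1) = 1 := by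
      rw [← hE]
      exact FiniteField.pow_card_sub_one_eq_one _ (inv_ne_zero ha0)
    rw [h1, one_pow, mul_one]

theorem prod_g_shift {K : Type} [Field K] (q d k : ℕ) (g : ℕ → K)
    (hd : 1 ≤ d) (hq : 2 ≤ q) (hk : k < q ^ d) (hg : g d = g 0) :
    ∏ i ∈ range d, ((g (i + 1))⁻¹) ^ (q - 1 - dg q (k1 q d k) i) =
      ∏ i ∈ range d, ((g i)⁻¹) ^ (q - 1 - dg q k i) := by
  obtain ⟨e, rfl⟩ : ∃ e, d = e + 1 := ⟨d - 1, by omega⟩
  rw [Finset.prod_range_succ, Finset.prod_range_succ', hg]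
  rw [dg_k1 q (e + 1) k hd hq hk e (by omega), if_neg (by omega)]
  congr 1
  apply Finset.prod_congr rfl
  intro i hi
  have hi' : i < e := by simpa using hi
  rw [dg_k1 q (e + 1) k hd hq hk i (by omega), if_pos (by omega)]

theorem TT_pow (q i : ℕ) :
    (TT E q) ^ i = HahnSeries.single ((i : ℤ) * (-((q : ℤ) - 1))) ((-1 : E) ^ i) := by
  unfold TT
  induction i with
  | zero => simp
  | succ i ih =>
    rw [pow_succ, ih, HahnSeries.single_mul_single, pow_succ]
    congr 1
    push_cast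
    ring_nf

theorem alg_single (e : E) :
    algebraMap E (LaurentSeries E) e = (HahnSeries.single 0 e : LaurentSeries E) := by
  rw [LaurentSeries.algebraMap_apply]
  rfl

theorem TT_trans (q : ℕ) (hq : 2 ≤ q) : Transcendental E (TT E q) := by
  rw [transcendental_iff]
  intro p hp
  by_contra hp0
  have h1 : (aeval (TT E q) p).coeff ((p.natDegree : ℤ) * (-((q : ℤ) - 1))) =
      p.leadingCoeff * (-1) ^ p.natDegree := by
    rw [aeval_eq_sum_range, HahnSeries.coeff_sum, Finset.sum_range_succ, Finset.sum_eq_zero]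
    · rw [zero_add, TT_pow, Algebra.smul_def]
      rw [alg_single, HahnSeries.single_mul_single, zero_add, HahnSeries.coeff_single_same]
      rfl
    · intro i hi
      have hi' : i < p.natDegree := by simpa using hi
      rw [TT_pow, Algebra.smul_def, alg_single, HahnSeries.single_mul_single, zero_add,
        HahnSeries.coeff_single_of_ne]
      intro h
      have h2 : ((p.natDegree : ℤ) - i) * ((q : ℤ) - 1) = 0 := by linarith
      rcases mul_eq_zero.mp h2 with h3 | h3 <;> omega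
  rw [hp] at h1
  have h2 : p.leadingCoeff * (-1) ^ p.natDegree ≠ 0 :=
    mul_ne_zero (leadingCoeff_ne_zero.mpr hp0) (pow_ne_zero _ (by norm_num))
  exact h2 h1.symm

end fields

theorem t_PC (hSTR : S_STR) (hLOC : S_LOC) (hBER : S_BER) (hGMF : S_GMF) (hFRB : S_FRB)
    (hDIG : S_DIG) (hGRL : S_GRL) (hHTH : S_HTH) : S_PC := by
  intro Fq E _ _ _ _ _ w θ q d k D hk0 hkq hkd hB
  have hq : 2 ≤ q := by
    rw [D.hq]
    exact Fintype.one_lt_card
  have hd1 := D.hd1
  obtain ⟨-, -, -, hn1, hnd, hE⟩ := hDIG q d k hq hd1 hk0 hkq hkd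
  obtain ⟨hcard, hPP⟩ := hE E θ
  obtain ⟨-, hinj, hper, hder0, -, -⟩ := hFRB Fq E w θ q d D
  have hroot : ∀ i, aeval (θ ^ (q ^ i)) w = 0 := by
    intro i
    have : aeval (θ ^ (q ^ i)) w = (aeval θ w) ^ (q ^ i) := by
      have hq' : q = Fintype.card Fq := D.hq
      induction i with
      | zero => simp
      | succ i ih =>
        rw [pow_succ, pow_mul, pow_mul, ← ih, hq']
        have := FiniteField.expand_card w
        rw [← map_pow (aeval (θ ^ _)) w, ← this, expand_aeval]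
    rw [this, D.root, zero_pow]
    exact (Nat.pow_pos (by omega)).ne'
  -- the functional equation
  have hFE : FEq q (nk q d k * (q - 1)) (((msk q d k θ).map fun t => X - C t).prod)
      (((msk q d k θ).map fun t => Hth q t).prod) := by
    have := hHTH E q (msk q d k θ) hq
    rwa [hcard] at this
  obtain ⟨-, hFc, hF0⟩ := hGMF Fq E q (nk q d k) (msk q d k θ) _ D.hq hn1 hcard hFE
  rw [← hPP] at hFc hF0
  suffices hF : fst q (nk q d k) (PP q d k θ) = 0 by
    obtain ⟨f, hf, hf2⟩ := hF0 hF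
    exact ⟨f, hf, fun i => (hf2 i).2⟩
  set F := fst q (nk q d k) (PP q d k θ) with hFdef
  set c : E := -((-1) ^ (nk q d k) *
      ∏ i ∈ range d, ((aeval (θ ^ (q ^ i)) (derivative w))⁻¹) ^ (q - 1 - dg q k i)) with hc
  have hc0 : c ≠ 0 := by
    rw [hc]
    apply neg_ne_zero.mpr
    apply mul_ne_zero (pow_ne_zero _ (by norm_num))
    apply Finset.prod_ne_zero_iff.mpr
    intro i _
    exact pow_ne_zero _ (inv_ne_zero (hder0 i))
  have hstr := hSTR Fq E w θ q d k D hk0 hkq hkd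
  -- the invariant
  have key : ∀ i : ℕ, ∃ k', 0 < k' ∧ k' < q ^ d - 1 ∧ (q - 1) ∣ k' ∧
      (q ^ i * k' ≡ k [MOD q ^ d - 1]) ∧
      Gam q d k' (θ ^ (q ^ i)) (TT E q) (gk q w (θ ^ (q ^ i))) =
        algebraMap E (LaurentSeries E) c * aeval (TT E q) F *
          ∏ j ∈ range d, ((gk q w (θ ^ (q ^ i)) j)⁻¹) ^ (q - 1 - dg q k' j) := by
    intro i
    induction i with
    | zero =>
      refine ⟨k, hk0, hkq, hkd, ?_, ?_⟩
      · simp only [pow_zero, one_mul]
        exact Nat.ModEq.refl _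
      · simp only [pow_zero, pow_one]
        exact hstr
    | succ i ih =>
      obtain ⟨k', h1, h2, h3, h4, h5⟩ := ih
      obtain ⟨h1', h2', h3'⟩ := k1_range q d k' hd1 hq h1 h2 h3
      refine ⟨k1 q d k', h1', h2', h3', ?_, ?_⟩
      · have := (k1_modeq q d k' hd1 hq).mul_left (q ^ i)
        rw [pow_succ, mul_assoc]
        exact this.trans h4
      · have hθ : θ ^ (q ^ (i + 1)) = (θ ^ (q ^ i)) ^ q := by rw [← pow_mul, pow_succ]
        have hgfun : gk q w (θ ^ (q ^ (i + 1))) = fun j => gk q w (θ ^ (q ^ i)) (j + 1) := by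
          funext j
          rw [hθ, gk_shift]
        have hg0 : gk q w (θ ^ (q ^ i)) d = gk q w (θ ^ (q ^ i)) 0 := by
          unfold gk
          have : (θ ^ (q ^ i)) ^ (q ^ d) = (θ ^ (q ^ i)) ^ (q ^ 0) := by
            rw [← pow_mul, ← pow_mul, ← pow_add, ← pow_add, hper]
            simp
          rw [this]
        rw [hgfun]
        rw [prod_g_shift q d k' (gk q w (θ ^ (q ^ i))) hd1 hq (by omega) hg0, ← h5]
        rw [hθ]
        exact Gam_shift q d k' (θ ^ (q ^ i)) (TT E q) (gk q w (θ ^ (q ^ i))) hd1 hq D.hd hg0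
  have hzero : ∀ i, F.eval (θ ^ (q ^ i)) = 0 := by
    intro i
    obtain ⟨k', h1, h2, h3, h4, h5⟩ := key i
    have D' : Dat Fq E w (θ ^ (q ^ i)) q d :=
      { hq := D.hq, hd := D.hd, hd1 := D.hd1, irr := D.irr, monic := D.monic, deg := D.deg
        root := hroot i }
    obtain ⟨-, -, hper', hder0', hder', -⟩ := hFRB Fq E w (θ ^ (q ^ i)) q d D'
    have hgr : ∀ j, gk q w (θ ^ (q ^ i)) j ≠ 0 ∧ gk q w (θ ^ (q ^ i)) j ^ q =
        (algebraMap E (LaurentSeries E) ((θ ^ (q ^ i)) ^ (q ^ (j + 1))) - TT E q) *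
          gk q w (θ ^ (q ^ i)) (j + 1) := by
      intro j
      have := hGRL Fq E q (aeval ((θ ^ (q ^ i)) ^ (q ^ j)) (derivative w))
        ((θ ^ (q ^ i)) ^ (q ^ j)) D.hq (hder0' j)
      unfold gk
      have e1 : ((θ ^ (q ^ i)) ^ (q ^ j)) ^ q = (θ ^ (q ^ i)) ^ (q ^ (j + 1)) := by
        rw [← pow_mul, ← pow_succ]
      have e2 : (aeval ((θ ^ (q ^ i)) ^ (q ^ j)) (derivative w)) ^ q =
          aeval ((θ ^ (q ^ i)) ^ (q ^ (j + 1))) (derivative w) := by
        rw [hder' j, hder' (j + 1), ← pow_mul, ← pow_succ]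
      rw [e1, e2] at this
      exact this
    have hgd : gk q w (θ ^ (q ^ i)) d = gk q w (θ ^ (q ^ i)) 0 := by
      unfold gk
      have := hper' 0
      rw [zero_add] at this
      rw [this]
    have hloc := hLOC Fq E (LaurentSeries E) w (θ ^ (q ^ i)) q d k' (TT E q)
      (gk q w (θ ^ (q ^ i))) F c D' h1 h2 h3 (TT_trans q hq) (fun j => (hgr j).1)
      (fun j => (hgr j).2) hgd h5
    have hber := hBER Fq E w (θ ^ (q ^ i)) q d k' D' h1 h2 (hB k' h1 h2 ⟨i, h4⟩)
    rw [hber, zero_mul] at hloc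
    rcases mul_eq_zero.mp hloc.symm with h | h
    · exact absurd h hc0
    · exact h
  by_contra hne
  have hdeg : F.natDegree < nk q d k := by
    by_contra h
    have := hFc F.natDegree (not_lt.mp h)
    exact hne (leadingCoeff_eq_zero.mp this)
  classical
  apply hne
  apply Polynomial.eq_zero_of_natDegree_lt_card_of_eval_eq_zero' F
    ((range d).image fun i => θ ^ (q ^ i))
  · intro x hx
    obtain ⟨i, -, rfl⟩ := Finset.mem_image.mp hx
    exact hzero i
  · rw [Finset.card_image_of_injOn, Finset.card_range]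
    · omega
    · intro i hi j hj hij
      exact hinj i (by simpa using hi) j (by simpa using hj) hij

end Pool.Agent.Run7.h768.GK
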